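import Mathlib
import Pool.Agent.Helper32.CL.St4

/-!
Module AI of project CL: the main integrand inequality.
-/

set_option autoImplicit false

namespace Pool.Agent.Helper41.CL

open Helper32.CL Helper35.PI Helper35.PI2
open scoped ContDiff Manifold Topology ENNReal BigOperators
open MeasureTheory Set Filter

private theorem fin_AI {η C₁ C₂ E Q R ρ I I0 : ℝ} (hC₁ : 0 ≤ C₁) (hC₂ : 0 ≤ C₂) (hE : 0 ≤ E)
    (hQ : 0 ≤ Q) (hρ0 : 0 ≤ ρ) (hρ1 : ρ ≤ 1) (g1 : η * R - C₁ * E ≤ I0)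
    (g2 : |I - ρ * I0| ≤ C₂ * (ρ * (1 - ρ) * Q)) :
    η * (ρ * R) - (C₁ + C₂) * E - (C₁ + C₂) * (ρ * (1 - ρ) * Q) ≤ I := by
  have hQ0 : 0 ≤ ρ * (1 - ρ) * Q := mul_nonneg (mul_nonneg hρ0 (by linarith)) hQ
  have g3 : ρ * (η * R - C₁ * E) ≤ ρ * I0 := mul_le_mul_of_nonneg_left g1 hρ0
  have g4 := (abs_le.1 g2).1
  have g5 : ρ * (C₁ * E) ≤ 1 * (C₁ * E) :=
    mul_le_mul_of_nonneg_right hρ1 (mul_nonneg hC₁ hE)
  have g6 : 0 ≤ C₂ * E := mul_nonneg hC₂ hE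
  have g7 : 0 ≤ C₁ * (ρ * (1 - ρ) * Q) := mul_nonneg hC₁ hQ0
  have g8 : ρ * (η * R - C₁ * E) = η * (ρ * R) - ρ * (C₁ * E) := by ring
  have g9 : (C₁ + C₂) * E = C₁ * E + C₂ * E := by ring
  have g10 : (C₁ + C₂) * (ρ * (1 - ρ) * Q) = C₁ * (ρ * (1 - ρ) * Q) +
      C₂ * (ρ * (1 - ρ) * Q) := by ring
  rw [g9, g10]
  linarith

private theorem tq_nonneg_AI {N : ℕ} (T : Fin 2 → Fin 2 → Fin 2 → EE N) : 0 ≤ tq T :=
  Finset.sum_nonneg fun _ _ => Finset.sum_nonneg fun _ _ => Finset.sum_nonneg fun _ _ =>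
    sq_nonneg _

theorem hAI (hAR : StAR) (hAC : StAC) (hAZ : StAZ) (_hAF : StAF) : StAI := by
  intro c₀ hc₀
  obtain ⟨η, C₁, hη, hC₁, h1⟩ := hAR c₀ hc₀
  obtain ⟨C₂, hC₂, h2⟩ := hAC
  refine ⟨η, C₁ + C₂, hη, by linarith, ?_⟩
  intro N A T ν v κ l δ hA hT hX hδ ρ hρ
  have hY0 : 0 ≤ YY A := sq_nonneg _
  have htq : 0 ≤ tq T := tq_nonneg_AI T
  have hE : 0 ≤ (∑ k, ‖DE κ A T v k‖ ^ 2) + ‖Hv A + κ • ν‖ ^ 2 * YY A :=
    add_nonneg (Finset.sum_nonneg fun _ _ => sq_nonneg _) (mul_nonneg (sq_nonneg _) hY0)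
  have hv : 0 ≤ YY A * (κ ^ 2 * ∑ k, v k ^ 2) :=
    mul_nonneg hY0 (mul_nonneg (sq_nonneg _) (Finset.sum_nonneg fun _ _ => sq_nonneg _))
  have hQ : 0 ≤ tq T + YY A ^ 2 + YY A * (κ ^ 2 * ∑ k, v k ^ 2) :=
    add_nonneg (add_nonneg htq (sq_nonneg _)) hv
  rcases hY0.eq_or_lt with hY | hY
  · have hX0 : XX A ≤ 0 := by
      rw [← hY] at hX
      linarith
    have hρ0 : ρ = 0 := by
      rw [hρ, ← hY]
      simp
    rw [hAZ N A T ν v κ l δ hA hT hδ hX0, hρ0]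
    have h3 : 0 ≤ (C₁ + C₂) * ((∑ k, ‖DE κ A T v k‖ ^ 2) + ‖Hv A + κ • ν‖ ^ 2 * YY A) :=
      mul_nonneg (by linarith) hE
    rw [zero_mul, zero_mul, zero_mul, mul_zero, mul_zero]
    linarith
  · have hXY : XX A ≤ YY A := by
      have h3 : c₀ * YY A ≤ 1 * YY A := mul_le_mul_of_nonneg_right (by linarith) hY0
      linarith
    have hpos : 0 < YY A ^ 4 + δ ^ 4 := add_pos (pow_pos hY 4) (pow_pos hδ 4)
    have hρ0 : 0 ≤ ρ := by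
      rw [hρ]
      exact div_nonneg (pow_nonneg hY0 4) hpos.le
    have hρ1 : ρ ≤ 1 := by
      rw [hρ, div_le_one hpos]
      have : 0 < δ ^ 4 := pow_pos hδ 4
      linarith
    exact fin_AI hC₁ hC₂ hE hQ hρ0 hρ1 (h1 N A T ν v κ l hA hT hY hX)
      (h2 N A T ν v κ l δ hA hT hY hXY hδ ρ hρ)

end Pool.Agent.Helper41.CL
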