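import Mathlib
import Pool.Agent.Helper32.CL.St1

/-!
Module FS of project CL: the area measure has full support.
-/

set_option autoImplicit false

namespace Pool.Agent.Helper41.CL

open Helper32.CL Helper35.PI Helper35.PI2
open scoped ContDiff Manifold Topology ENNReal BigOperators
open MeasureTheory Set Filter

theorem hFS (hMU : StMU) (hEB : StEB) (hI2 : StI2) (hI3 : StI3) (hV1 : StV1) : StFS := by
  intro n N M _ _ _ _ _ _ _ F c χ hS t ht g hg hg0 hint q
  have hF := hS.mcf
  have hPU := hS.pu
  obtain ⟨s, -, hs⟩ := hMU n N M F c χ hS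
  obtain ⟨-, hLam, hLs⟩ := hs t ht
  have hL : Lam (n := n) F c χ t (fun q => ENNReal.ofReal (g q)) = 0 := by
    have h1 : Measurable fun q => ENNReal.ofReal (g q) :=
      ENNReal.measurable_ofReal.comp hg.measurable
    rw [← hLam (fun q => ENNReal.ofReal (g q)) h1,
      ← ofReal_integral_eq_lintegral_ofReal (hLs g hg).1 (Filter.Eventually.of_forall hg0), hint,
      ENNReal.ofReal_zero]
  -- a chart with positive weight
  obtain ⟨i, hi⟩ : ∃ i, χ i q ≠ 0 := by
    by_contra h
    push Not at h
    have h1 := hPU.sum q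
    simp only [h] at h1
    have := h1.unique hasSum_zero
    norm_num at this
  have hipos : 0 < χ i q := lt_of_le_of_ne (hPU.nonneg i q) (Ne.symm hi)
  set e := chartAt (EE n) (c i) with he
  have hqs : q ∈ e.source := hPU.sub i (subset_tsupport _ hi)
  set y₀ := e q with hy₀
  have hy₀t : y₀ ∈ e.target := e.map_source hqs
  have hsy : e.symm y₀ = q := e.left_inv hqs
  obtain ⟨-, -, -, hpt⟩ := hEB n N M F hF 1 one_pos
  obtain ⟨-, -, hσc⟩ := hpt (c i)
  -- the density is positive
  have hσpos : 0 < sgm (loc (n := n) F (c i) t) y₀ := by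
    have hLI := (hI3 n N M F hF (c i) q t ht hqs).1
    have hsm := hI2 n N M F hF (c i)
    have hcd : ContDiffAt ℝ ∞ (fun z : EE n × ℝ => F (e.symm z.1) z.2) (y₀, t) := by
      refine hsm.contDiffAt ?_
      exact (e.open_target.prod isOpen_Iio).mem_nhds ⟨hy₀t, ht⟩
    exact (hV1 n N (fun z : EE n × ℝ => F (e.symm z.1) z.2) (y₀, t) hcd hLI).1
  by_contra hne
  have hgpos : 0 < g q := lt_of_le_of_ne (hg0 q) (Ne.symm hne)
  -- continuity
  have hsymm : ContinuousOn e.symm e.target := e.continuousOn_symm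
  have hc1 : ContinuousOn (fun y => g (e.symm y)) e.target := hg.comp_continuousOn hsymm
  have hc3 : ContinuousOn (fun y => sgm (loc (n := n) F (c i) t) y) e.target :=
    hσc.comp (f := fun y => (y, t)) (by fun_prop) (fun y hy => ⟨hy, ht⟩)
  have hc4 : ContinuousOn (fun y => χ i (e.symm y)) e.target :=
    (hPU.smooth i).continuous.comp_continuousOn hsymm
  set φ : EE n → ℝ := fun y => χ i (e.symm y) * g (e.symm y) *
    sgm (loc (n := n) F (c i) t) y with hφd
  have hφ : ContinuousOn φ e.target := (hc4.mul hc1).mul hc3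
  have hφpos : 0 < φ y₀ := by
    simp only [hφd, hsy]
    positivity
  have hev : ∀ᶠ y in 𝓝 y₀, φ y₀ / 2 < φ y ∧ y ∈ e.target := by
    have h1 : ContinuousAt φ y₀ := hφ.continuousAt (e.open_target.mem_nhds hy₀t)
    filter_upwards [h1.eventually (lt_mem_nhds (by linarith : φ y₀ / 2 < φ y₀)),
      e.open_target.mem_nhds hy₀t] with y h2 h3
    exact ⟨h2, h3⟩
  obtain ⟨r, hr, hball⟩ := Metric.eventually_nhds_iff_ball.1 hev
  -- the integral
  have hterm : (∫⁻ y in e.target, ENNReal.ofReal (χ i (e.symm y)) *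
      ENNReal.ofReal (g (e.symm y)) *
        ENNReal.ofReal (sgm (loc (n := n) F (c i) t) y)) = 0 := by
    have h1 := ENNReal.tsum_eq_zero.1 hL i
    exact h1
  have hge : ENNReal.ofReal (φ y₀ / 2) * volume (Metric.ball y₀ r) ≤ 0 := by
    rw [← hterm, ← setLIntegral_const]
    refine le_trans ?_ (lintegral_mono_set (fun y hy => (hball y hy).2))
    refine setLIntegral_mono' Metric.isOpen_ball.measurableSet ?_
    intro y hy
    rw [← ENNReal.ofReal_mul (hPU.nonneg i _), ← ENNReal.ofReal_mul]
    · exact ENNReal.ofReal_le_ofReal (hball y hy).1.le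
    · exact mul_nonneg (hPU.nonneg i _) (hg0 _)
  have hpos2 : 0 < ENNReal.ofReal (φ y₀ / 2) * volume (Metric.ball y₀ r) := by
    apply ENNReal.mul_pos
    · simp only [ne_eq, ENNReal.ofReal_eq_zero, not_le]
      linarith
    · exact (Metric.measure_ball_pos volume y₀ hr).ne'
  exact absurd hge (not_le.2 hpos2)

end Pool.Agent.Helper41.CL
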